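import Pool.Agent.H82.LB.Targets

/-!
Lemma B (MP_ee74d2_an), row LB3: a common shading class.
-/

set_option autoImplicit false

namespace Pool.Agent.H19.LB.LB3

open MeasureTheory Set Pool.Agent.H83.G Pool.Agent.H82.LB
open scoped ENNReal NNReal RealInnerProductSpace

/-- a plank which is incident to a cube of `QQ` is in a shading class -/
private theorem exists_class {QQ : Finset (Zi 2)} {R r δ : ℝ} {p : ℕ} (hp : QQ.card ≤ 2 ^ p)
    {T : Pk 2} {q : Zi 2} (hq : q ∈ QQ) (hI : Inc R δ T q) :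
    ∃ l k : ℕ, l ≤ p ∧ k ≤ p ∧ Sh QQ R r δ l k T (bl R r q) := by
  classical
  have h1 : 1 ≤ mu QQ R r δ T (bl R r q) := by
    unfold mu
    exact Finset.card_pos.2 ⟨q, Finset.mem_filter.2 ⟨hq, rfl, hI⟩⟩
  have h2 : mu QQ R r δ T (bl R r q) ≤ 2 ^ p := by
    unfold mu
    exact (Finset.card_filter_le _ _).trans hp
  obtain ⟨l, hl⟩ : ∃ l, l = Nat.log 2 (mu QQ R r δ T (bl R r q)) := ⟨_, rfl⟩
  have h3 : 2 ^ l ≤ mu QQ R r δ T (bl R r q) := by
    rw [hl]
    exact Nat.pow_log_le_self 2 (by omega)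
  have h4 : mu QQ R r δ T (bl R r q) < 2 ^ (l + 1) := by
    rw [hl]
    exact Nat.lt_pow_succ_log_self (by norm_num) _
  have h5 : 1 ≤ nB QQ R r δ l T := by
    unfold nB
    exact Finset.card_pos.2 ⟨bl R r q, Finset.mem_filter.2
      ⟨Finset.mem_image_of_mem _ hq, h3, h4⟩⟩
  have h6 : nB QQ R r δ l T ≤ 2 ^ p := by
    unfold nB
    exact (Finset.card_filter_le _ _).trans (Finset.card_image_le.trans hp)
  refine ⟨l, Nat.log 2 (nB QQ R r δ l T), ?_, ?_, h3, h4, ?_, ?_⟩
  · rw [hl]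
    have := Nat.log_mono_right (b := 2) h2
    rwa [Nat.log_pow (by norm_num)] at this
  · have := Nat.log_mono_right (b := 2) h6
    rwa [Nat.log_pow (by norm_num)] at this
  · exact Nat.pow_log_le_self 2 (by omega)
  · exact Nat.lt_pow_succ_log_self (by norm_num) _

private theorem dyad {a l l' : ℕ} (h1 : 2 ^ l ≤ a) (h2 : a < 2 ^ (l + 1)) (h3 : 2 ^ l' ≤ a)
    (h4 : a < 2 ^ (l' + 1)) : l = l' := by
  have h5 : l < l' + 1 := (Nat.pow_lt_pow_iff_right (by norm_num)).1 (h1.trans_lt h4)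
  have h6 : l' < l + 1 := (Nat.pow_lt_pow_iff_right (by norm_num)).1 (h3.trans_lt h2)
  omega

/-- the class is unique -/
private theorem class_unique {QQ : Finset (Zi 2)} {R r δ : ℝ} {T : Pk 2} {B : Zi 2}
    {l k l' k' : ℕ} (h : Sh QQ R r δ l k T B) (h' : Sh QQ R r δ l' k' T B) :
    l = l' ∧ k = k' := by
  obtain ⟨h1, h2, h3, h4⟩ := h
  obtain ⟨h1', h2', h3', h4'⟩ := h'
  have e : l = l' := dyad h1 h2 h1' h2'
  subst e
  exact ⟨rfl, dyad h3 h4 h3' h4'⟩

theorem pf_LB3 (hBRS : T_BRS) : T_LB3 := by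
  intro ι K n p R r δ H QQ I c S X f hH hQ hX hsmall hB
  classical
  obtain ⟨Lab, hLab⟩ : ∃ Lab : Finset (ℕ × ℕ),
    Lab = Finset.range (p + 1) ×ˢ Finset.range (p + 1) := ⟨_, rfl⟩
  have hcard : Lab.card = (p + 1) ^ 2 := by
    rw [hLab, Finset.card_product, Finset.card_range]
    ring
  have hne : Lab.Nonempty := by
    rw [hLab]
    exact ⟨(0, 0), by simp⟩
  have hlab : ∀ z ∈ X, ∃ lam ∈ Lab, Brm K n (H / (2 * (Lab.card : ℝ))) I c
      (fun j => ∑ W ∈ SB QQ R r δ lam.1 lam.2 (S j) (bl R r (cb (Real.sqrt R) z)), f j W z) := by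
    intro z hz
    refine hBRS ι (ℕ × ℕ) K H n I c Lab (fun j => ∑ W ∈ S j, f j W z)
      (fun lam j => ∑ W ∈ SB QQ R r δ lam.1 lam.2 (S j) (bl R r (cb (Real.sqrt R) z)), f j W z)
      hH ?_ ?_
    · intro j hj
      obtain ⟨B, hBd⟩ : ∃ B, B = bl R r (cb (Real.sqrt R) z) := ⟨_, rfl⟩
      rw [← hBd]
      have e1 : ∑ lam ∈ Lab, ∑ W ∈ SB QQ R r δ lam.1 lam.2 (S j) B, f j W z =
          ∑ W ∈ (S j).filter (fun W => ∃ lam ∈ Lab, Sh QQ R r δ lam.1 lam.2 (tb R W) B),
            f j W z := by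
        have e2 : (S j).filter (fun W => ∃ lam ∈ Lab, Sh QQ R r δ lam.1 lam.2 (tb R W) B) =
            Lab.biUnion fun lam => SB QQ R r δ lam.1 lam.2 (S j) B := by
          ext W
          simp only [Finset.mem_filter, Finset.mem_biUnion, SB]
          constructor
          · rintro ⟨h1, lam, h2, h3⟩
            exact ⟨lam, h2, h1, h3⟩
          · rintro ⟨lam, h2, h1, h3⟩
            exact ⟨h1, lam, h2, h3⟩
        rw [e2, Finset.sum_biUnion]
        intro lam _ lam' _ hne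
        refine Finset.disjoint_left.2 fun W hW hW' => hne ?_
        unfold SB at hW hW'
        have h1 := (Finset.mem_filter.1 hW).2
        have h2 := (Finset.mem_filter.1 hW').2
        obtain ⟨h3, h4⟩ := class_unique h1 h2
        exact Prod.ext h3 h4
      have e3 : ∑ W ∈ S j, f j W z -
          ∑ lam ∈ Lab, ∑ W ∈ SB QQ R r δ lam.1 lam.2 (S j) B, f j W z =
          ∑ W ∈ (S j).filter (fun W => ¬ ∃ lam ∈ Lab, Sh QQ R r δ lam.1 lam.2 (tb R W) B),
            f j W z := by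
        rw [e1, ← Finset.sum_filter_add_sum_filter_not (S j)
          (fun W => ∃ lam ∈ Lab, Sh QQ R r δ lam.1 lam.2 (tb R W) B)]
        ring
      rw [e3]
      refine (norm_sum_le _ _).trans (hsmall z hz j hj _ (Finset.filter_subset _ _) ?_)
      intro W hW hI
      refine (Finset.mem_filter.1 hW).2 ?_
      obtain ⟨l, k, hl, hk, hS⟩ := exists_class (r := r) hQ (hX z hz) hI
      refine ⟨(l, k), ?_, ?_⟩
      · rw [hLab]
        simp only [Finset.mem_product, Finset.mem_range]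
        omega
      · rw [hBd]
        exact hS
    · rw [hcard]
      exact hB z hz
  choose! lam hlam1 hlam2 using hlab
  -- the most frequent label
  obtain ⟨m, hm, hm2⟩ : ∃ m ∈ Lab, X.card ≤ (p + 1) ^ 2 * (X.filter fun z => lam z = m).card := by
    refine Finset.exists_le_of_sum_le hne ?_
    rw [Finset.sum_const, ← Finset.mul_sum, smul_eq_mul, hcard,
      ← Finset.card_eq_sum_card_fiberwise (f := lam) (t := Lab) (s := X) hlam1]
  refine ⟨m.1, m.2, X.filter fun z => lam z = m, Finset.filter_subset _ _, hm2, ?_⟩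
  intro z hz
  obtain ⟨hz1, hz2⟩ := Finset.mem_filter.1 hz
  have h := hlam2 z hz1
  rw [hz2, hcard] at h
  push_cast at h
  exact h

end Pool.Agent.H19.LB.LB3
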