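import Pool.Agent.H19.LB.SCS

/-!
# The open model `OO 3` is simply connected
-/

open Topology Set
open Pool.Agent.H59 Pool.Agent.H64.LB
open scoped unitInterval ContinuousMap

namespace Pool.Agent.H19.LB

theorem sc_prod {A B : Type} [TopologicalSpace A] [TopologicalSpace B] [SimplyConnectedSpace A]
    [SimplyConnectedSpace B] : SimplyConnectedSpace (A × B) := by
  rw [simply_connected_iff_paths_homotopic]
  refine ⟨inferInstance, fun x y => ⟨fun p q => ?_⟩⟩
  rw [← Path.Homotopic.prod_projLeft_projRight p, ← Path.Homotopic.prod_projLeft_projRight q]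
  rw [Subsingleton.elim (Path.Homotopic.projLeft p) (Path.Homotopic.projLeft q),
    Subsingleton.elim (Path.Homotopic.projRight p) (Path.Homotopic.projRight q)]

/-- van Kampen for two open subsets of a space -/
theorem vk_union (hVK : T_VK) {E : Type} [TopologicalSpace E] {A C : Set E} (hA : IsOpen A)
    (hC : IsOpen C) (sA : SimplyConnectedSpace A) (sC : SimplyConnectedSpace C)
    (pAC : IsPathConnected (A ∩ C)) : SimplyConnectedSpace ↥(A ∪ C) := by
  have hp := isPathConnected_iff_pathConnectedSpace.mp pAC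
  refine hVK ↥(A ∪ C) {x | x.1 ∈ A} {x | x.1 ∈ C} (hA.preimage continuous_subtype_val)
    (hC.preimage continuous_subtype_val) ?_ ?_ ?_ ?_
  · refine eq_univ_of_forall (fun x => ?_)
    exact x.2
  · exact sc_of_homeo (flat {x : ↥(A ∪ C) | x.1 ∈ A} A
      (fun x => ⟨fun hx => ⟨Or.inl hx, hx⟩, fun hx => hx.2⟩))
  · exact sc_of_homeo (flat {x : ↥(A ∪ C) | x.1 ∈ C} C
      (fun x => ⟨fun hx => ⟨Or.inr hx, hx⟩, fun hx => hx.2⟩))
  · exact pc_of_homeo (flat ({x : ↥(A ∪ C) | x.1 ∈ A} ∩ {x : ↥(A ∪ C) | x.1 ∈ C}) (A ∩ C)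
      (fun x => ⟨fun hx => ⟨Or.inl hx.1, hx⟩, fun hx => hx.2⟩))

theorem sco (hTRI : T_TRI) (hVK : T_VK) (hSCS : T_SCS) : T_SCO := by
  obtain ⟨S, hSo, hSc, hSd, hSr, hSt, -, hcl⟩ := hTRI
  have hne : ∀ j, (S j).Nonempty := fun j => ⟨_, hSr j⟩
  let B : Set (ℂ × (Fin 3 → ℝ)) := {p | p.2 ≠ 0}
  let T : Fin 3 → Set (ℂ × (Fin 3 → ℝ)) := fun j => S j ×ˢ univ
  have hBo : IsOpen B := isOpen_ne_fun continuous_snd continuous_const
  have hTo : ∀ j, IsOpen (T j) := fun j => (hSo j).prod isOpen_univ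
  have hTs : ∀ j, SimplyConnectedSpace (T j) := fun j => by
    have := ((hSc j).prod (convex_univ (𝕜 := ℝ) (E := Fin 3 → ℝ))).contractibleSpace
      ((hne j).prod univ_nonempty)
    exact SimplyConnectedSpace.ofContractible _
  have hBs : SimplyConnectedSpace B := by
    have h1 := hSCS 2 le_rfl
    have h2 : SimplyConnectedSpace (ℂ × Sph 2) := sc_prod
    let e : B ≃ₜ (ℂ × Sph 2) :=
      { toFun := fun p => (p.1.1, ⟨p.1.2, p.2⟩)
        invFun := fun p => ⟨(p.1, p.2.1), p.2.2⟩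
        left_inv := fun _ => rfl
        right_inv := fun _ => rfl
        continuous_toFun := (continuous_fst.comp continuous_subtype_val).prodMk
          ((continuous_snd.comp continuous_subtype_val).subtype_mk _)
        continuous_invFun := (continuous_fst.prodMk
          (continuous_subtype_val.comp continuous_snd)).subtype_mk _ }
    exact sc_of_homeo e
  have hpc : ∀ j, IsPathConnected (S j ×ˢ ({0}ᶜ : Set (Fin 3 → ℝ))) := by
    intro j
    refine ((hSc j).isPathConnected (hne j)).prod ?_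
    apply isPathConnected_compl_singleton_of_one_lt_rank
    rw [rank_fun']
    simp
  have hdis : ∀ i j, i ≠ j → ∀ a, a ∈ S i → a ∉ S j := fun i j hij a hi hj =>
    (disjoint_left.mp (hSd i j hij)) hi hj
  have e0 : B ∩ T 0 = S 0 ×ˢ ({0}ᶜ : Set (Fin 3 → ℝ)) := by
    ext p
    simp only [B, T, mem_inter_iff, mem_ofPred_eq, mem_prod, mem_univ, and_true, mem_compl_iff,
      mem_singleton_iff]
    tauto
  have w0 := vk_union hVK hBo (hTo 0) hBs (hTs 0) (by rw [e0]; exact hpc 0)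
  have e1 : (B ∪ T 0) ∩ T 1 = S 1 ×ˢ ({0}ᶜ : Set (Fin 3 → ℝ)) := by
    ext p
    have h := hdis 0 1 (by decide) p.1
    simp only [B, T, mem_inter_iff, mem_union, mem_ofPred_eq, mem_prod, mem_univ, and_true,
      mem_compl_iff, mem_singleton_iff]
    tauto
  have w1 := vk_union hVK (hBo.union (hTo 0)) (hTo 1) w0 (hTs 1) (by rw [e1]; exact hpc 1)
  have e2 : ((B ∪ T 0) ∪ T 1) ∩ T 2 = S 2 ×ˢ ({0}ᶜ : Set (Fin 3 → ℝ)) := by
    ext p
    have h := hdis 0 2 (by decide) p.1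
    have h' := hdis 1 2 (by decide) p.1
    simp only [B, T, mem_inter_iff, mem_union, mem_ofPred_eq, mem_prod, mem_univ, and_true,
      mem_compl_iff, mem_singleton_iff]
    tauto
  have w2 := vk_union hVK ((hBo.union (hTo 0)).union (hTo 1)) (hTo 2) w1 (hTs 2)
    (by rw [e2]; exact hpc 2)
  have hset : ∀ p : ℂ × (Fin 3 → ℝ), p ∈ ((B ∪ T 0) ∪ T 1) ∪ T 2 ↔
      ¬ (p.2 = 0 ∧ ∃ t : ℝ, t ≤ 0 ∧ p.1 ^ 3 = (t : ℂ)) := by
    intro p
    have h1 : (¬ ∃ t : ℝ, t ≤ 0 ∧ p.1 ^ 3 = (t : ℂ)) ↔ ∃ j, p.1 ∈ S j := hSt p.1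
    rw [not_and_or, h1, Fin.exists_fin_succ, Fin.exists_fin_succ, Fin.exists_fin_one]
    simp only [B, T, mem_union, mem_ofPred_eq, mem_prod, mem_univ, and_true]
    change ((_ ∨ _) ∨ _) ∨ _ ↔ _ ∨ _ ∨ _ ∨ _
    tauto
  exact sc_of_homeo (Homeomorph.subtype (Homeomorph.refl _) (fun p => (hset p).symm))

end Pool.Agent.H19.LB
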