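import Pool.Agent.H64.LB.Targets

/-!
# Simple connectivity of symmetric products
-/

open Topology Set
open Pool.Agent.H59 Pool.Agent.H64.LB
open scoped unitInterval ContinuousMap

namespace Pool.Agent.H19.LB

theorem pi_subsingleton {ι : Type} {X : ι → Type} [∀ i, TopologicalSpace (X i)]
    [∀ i, SimplyConnectedSpace (X i)] (x y : ∀ i, X i) :
    Subsingleton (Path.Homotopic.Quotient x y) := by
  refine ⟨fun p q => ?_⟩
  rw [← Path.Homotopic.pi_proj p, ← Path.Homotopic.pi_proj q]
  congr 1
  funext i
  exact Subsingleton.elim _ _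

/-- loops at one point being trivial is enough -/
theorem loops_of_base {Z : Type} [TopologicalSpace Z] [PathConnectedSpace Z] (b : Z)
    (h : ∀ γ : Path b b, Path.Homotopic γ (Path.refl b)) : SimplyConnectedSpace Z := by
  rw [simply_connected_iff_loops_nullhomotopic]
  refine ⟨inferInstance, fun x γ => ?_⟩
  have α : Path b x := PathConnectedSpace.somePath b x
  have h1 := h ((α.trans γ).trans α.symm)
  rw [← Path.Homotopic.Quotient.eq] at h1 ⊢
  have h2 : Path.Homotopic.Quotient.mk γ =
      ((Path.Homotopic.Quotient.mk α).symm.trans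
        (Path.Homotopic.Quotient.mk ((α.trans γ).trans α.symm))).trans
          (Path.Homotopic.Quotient.mk α) := by
    simp only [Path.Homotopic.Quotient.mk_trans, Path.Homotopic.Quotient.mk_symm,
      Path.Homotopic.Quotient.trans_assoc, Path.Homotopic.Quotient.symm_trans,
      Path.Homotopic.Quotient.trans_refl]
    rw [← Path.Homotopic.Quotient.trans_assoc, Path.Homotopic.Quotient.symm_trans,
      Path.Homotopic.Quotient.refl_trans]
  rw [h2, h1]
  simp

theorem scp (hPLF : T_PLF) : T_SCP := by
  intro Y _ _ N hY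
  have := hY
  have : PathConnectedSpace (SP N Y) :=
    inferInstanceAs (PathConnectedSpace (Quotient (spSetoid N Y)))
  obtain ⟨y0⟩ : Nonempty Y := inferInstance
  refine loops_of_base (SP.mk (fun _ : Fin N => y0)) (fun γ => ?_)
  obtain ⟨γ', hγ'⟩ := hPLF Y N γ.toContinuousMap
  have key : ∀ y : Fin N → Y, SP.mk y = SP.mk (fun _ : Fin N => y0) → y = fun _ => y0 := by
    intro y hy
    obtain ⟨s, hs⟩ := Quotient.exact hy
    funext i
    have := congrFun hs (s⁻¹ i)
    simpa using this.symm
  have h0 : γ' 0 = fun _ => y0 := key _ (by rw [hγ' 0]; exact γ.source)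
  have h1 : γ' 1 = fun _ => y0 := key _ (by rw [hγ' 1]; exact γ.target)
  let p : Path (fun _ : Fin N => y0) (fun _ : Fin N => y0) :=
    { toFun := γ'
      source' := h0
      target' := h1 }
  have := pi_subsingleton (fun _ : Fin N => y0) (fun _ : Fin N => y0)
  have hp : Path.Homotopic p (Path.refl _) :=
    Path.Homotopic.Quotient.eq.mp (Subsingleton.elim _ _)
  have hm := hp.map (⟨SP.mk, SP.continuous_mk⟩ : C(Fin N → Y, SP N Y))
  have e1 : p.map (SP.continuous_mk (N := N) (Y := Y)) = γ := by
    ext t
    exact hγ' t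
  have e2 : (Path.refl (fun _ : Fin N => y0)).map (SP.continuous_mk (N := N) (Y := Y)) =
      Path.refl (SP.mk (fun _ : Fin N => y0)) := by
    ext t
    rfl
  rw [← e1, ← e2]
  exact hm

end Pool.Agent.H19.LB
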