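import Pool.Agent.H64.LB.Targets

/-!
# The complement of the origin is simply connected
-/

open Topology Set
open Pool.Agent.H59 Pool.Agent.H64.LB
open scoped unitInterval ContinuousMap

namespace Pool.Agent.H19.LB

/-- a subset of a subtype, as a subset of the ambient space -/
def flat {E : Type} [TopologicalSpace E] {P : E → Prop} (s : Set {x // P x}) (t : Set E)
    (h : ∀ x, x ∈ t ↔ ∃ hx : P x, (⟨x, hx⟩ : {x // P x}) ∈ s) : s ≃ₜ t where
  toFun x := ⟨x.1.1, (h _).mpr ⟨x.1.2, x.2⟩⟩
  invFun x := ⟨⟨x.1, ((h _).mp x.2).1⟩, ((h _).mp x.2).2⟩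
  left_inv _ := rfl
  right_inv _ := rfl
  continuous_toFun :=
    (continuous_subtype_val.comp continuous_subtype_val).subtype_mk _
  continuous_invFun := (continuous_subtype_val.subtype_mk _).subtype_mk _

theorem sc_of_homeo {A B : Type} [TopologicalSpace A] [TopologicalSpace B] (e : A ≃ₜ B)
    [SimplyConnectedSpace B] : SimplyConnectedSpace A :=
  e.toHomotopyEquiv.simplyConnectedSpace

theorem pc_of_homeo {A B : Type} [TopologicalSpace A] [TopologicalSpace B] (e : A ≃ₜ B)
    [PathConnectedSpace B] : PathConnectedSpace A :=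
  e.symm.surjective.pathConnectedSpace e.symm.continuous

/-- the vectors of `ℝ^(k+1)` whose tail is nonzero -/
theorem pc_tail (k : ℕ) (hk : 2 ≤ k) :
    IsPathConnected {x : Fin (k + 1) → ℝ | Fin.tail x ≠ 0} := by
  have h1 : IsPathConnected ({0}ᶜ : Set (Fin k → ℝ)) := by
    apply isPathConnected_compl_singleton_of_one_lt_rank
    rw [rank_fun']
    simp only [Fintype.card_fin]
    exact_mod_cast hk
  have h2 : IsPathConnected ((univ : Set ℝ) ×ˢ ({0}ᶜ : Set (Fin k → ℝ))) :=
    isPathConnected_univ.prod h1
  have h3 := h2.image (f := fun p : ℝ × (Fin k → ℝ) => (Fin.cons p.1 p.2 : Fin (k + 1) → ℝ))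
    (by
      refine continuous_pi (fun i => ?_)
      refine Fin.cases ?_ (fun j => ?_) i
      · simpa using continuous_fst
      · simp only [Fin.cons_succ]
        exact (continuous_apply j).comp continuous_snd)
  convert h3 using 1
  ext x
  simp only [mem_ofPred_eq, mem_image, mem_prod, mem_univ, true_and, mem_compl_iff,
    mem_singleton_iff, Prod.exists]
  constructor
  · intro hx
    exact ⟨x 0, Fin.tail x, hx, Fin.cons_self_tail x⟩
  · rintro ⟨a, y, hy, rfl⟩
    simpa using hy

theorem star_tail (k : ℕ) (s : ℝ) (hs : s ≠ 0) :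
    StarConvex ℝ (Fin.cons s 0 : Fin (k + 1) → ℝ)
      {x : Fin (k + 1) → ℝ | Fin.tail x ≠ 0 ∨ 0 < s * x 0} := by
  intro y hy a b ha hb hab
  have ht : Fin.tail (a • (Fin.cons s 0 : Fin (k + 1) → ℝ) + b • y) = b • Fin.tail y := by
    funext i
    simp [Fin.tail]
  have h0 : (a • (Fin.cons s 0 : Fin (k + 1) → ℝ) + b • y) 0 = a * s + b * y 0 := by
    simp
  simp only [mem_ofPred_eq]
  rw [ht, h0]
  have hss : 0 < s * s := mul_self_pos.mpr hs
  rcases hy with hy | hy
  · rcases eq_or_ne b 0 with hb0 | hb0
    · right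
      subst hb0
      have : a = 1 := by linarith
      subst this
      simpa using hss
    · left
      exact smul_ne_zero hb0 hy
  · right
    have e : s * (a * s + b * y 0) = a * (s * s) + b * (s * y 0) := by ring
    rw [e]
    rcases ha.eq_or_lt with h | h
    · have : b = 1 := by linarith
      subst this
      rw [← h]
      simpa using hy
    · have h1 : 0 < a * (s * s) := mul_pos h hss
      have h2 : 0 ≤ b * (s * y 0) := mul_nonneg hb hy.le
      linarith

/-- the two halves -/
def half (k : ℕ) (s : ℝ) : Set (Sph k) := {x | Fin.tail x.1 ≠ 0 ∨ 0 < s * x.1 0}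

theorem half_open (k : ℕ) (s : ℝ) : IsOpen (half k s) := by
  refine IsOpen.union ?_ ?_
  · have : Continuous (fun x : Sph k => Fin.tail x.1) :=
      continuous_pi (fun i => (continuous_apply (Fin.succ i)).comp continuous_subtype_val)
    exact isOpen_ne_fun this continuous_const
  · exact isOpen_lt continuous_const
      (continuous_const.mul ((continuous_apply 0).comp continuous_subtype_val))

theorem half_sc (k : ℕ) (s : ℝ) (hs : s ≠ 0) : SimplyConnectedSpace (half k s) := by
  have hc := (star_tail k s hs).contractibleSpace ⟨Fin.cons s 0, by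
    right
    simpa using mul_self_pos.mpr hs⟩
  refine sc_of_homeo (flat (half k s)
    {x : Fin (k + 1) → ℝ | Fin.tail x ≠ 0 ∨ 0 < s * x 0} (fun x => ?_))
  constructor
  · intro hx
    refine ⟨?_, hx⟩
    rintro rfl
    rcases hx with hx | hx
    · exact hx rfl
    · simp at hx
  · rintro ⟨_, hx⟩
    exact hx

theorem scs (hVK : T_VK) : T_SCS := by
  intro k hk
  have hx0 : ∀ x : Fin (k + 1) → ℝ, x ≠ 0 → Fin.tail x = 0 → x 0 ≠ 0 := by
    intro x hx ht h0
    apply hx
    funext i
    refine Fin.cases h0 (fun j => ?_) i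
    exact congrFun ht j
  refine hVK (Sph k) (half k 1) (half k (-1)) (half_open k 1) (half_open k (-1)) ?_
    (half_sc k 1 one_ne_zero) (half_sc k (-1) (by norm_num)) ?_
  · refine eq_univ_of_forall (fun x => ?_)
    by_cases ht : Fin.tail x.1 = 0
    · rcases lt_or_gt_of_ne (hx0 x.1 x.2 ht) with h | h
      · right
        right
        change 0 < -1 * x.1 0
        linarith
      · left
        right
        change 0 < 1 * x.1 0
        linarith
    · left
      left
      exact ht
  · have hp := isPathConnected_iff_pathConnectedSpace.mp (pc_tail k hk)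
    refine pc_of_homeo (flat (half k 1 ∩ half k (-1))
      {x : Fin (k + 1) → ℝ | Fin.tail x ≠ 0} (fun x => ?_))
    constructor
    · intro hx
      refine ⟨?_, Or.inl hx, Or.inl hx⟩
      rintro rfl
      exact hx rfl
    · rintro ⟨_, h1, h2⟩
      rcases h1 with h1 | h1
      · exact h1
      · rcases h2 with h2 | h2
        · exact h2
        · exfalso
          simp only [one_mul, neg_mul] at h1 h2
          linarith

end Pool.Agent.H19.LB
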