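import Pool.Agent.H19.LB.SCS

/-!
# Homology of the product of the complement of the tripod with a space
-/

open Topology Set
open Pool.Agent.H59 Pool.Agent.H64.LB
open scoped unitInterval ContinuousMap

namespace Pool.Agent.H19.LB

section

variable (R : Type) [CommRing R] {T Z : Type} [TopologicalSpace T] [TopologicalSpace Z]

theorem bij_homeo (q : ℕ) {A B : Type} [TopologicalSpace A] [TopologicalSpace B] (e : A ≃ₜ B) :
    Function.Bijective (HH.map R q (e : C(A, B))) := by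
  have h1 : ((e.symm : C(B, A))).comp (e : C(A, B)) = ContinuousMap.id A := by
    ext x
    simp
  have h2 : ((e : C(A, B))).comp (e.symm : C(B, A)) = ContinuousMap.id B := by
    ext x
    simp
  refine ⟨fun x y hxy => ?_, fun y => ⟨HH.map R q (e.symm : C(B, A)) y, ?_⟩⟩
  · rw [← HH.map_id R q x, ← HH.map_id R q y, ← h1, HH.map_comp, HH.map_comp, hxy]
  · rw [← HH.map_comp, h2, HH.map_id]

theorem bij_sector (hHM : T_HM) (q : ℕ) {S : Set ℂ} (hS : Convex ℝ S) (a0 : ℂ) (ha : a0 ∈ S)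
    (e : Z ≃ₜ {x : ℂ × T // x.1 ∈ S}) (k : C(T, Z)) (hk : ∀ t, (e (k t)).1 = (a0, t)) :
    Function.Bijective (HH.map R q k) := by
  let κ : C(T, {x : ℂ × T // x.1 ∈ S}) :=
    ⟨fun t => ⟨(a0, t), ha⟩, (continuous_const.prodMk continuous_id).subtype_mk _⟩
  let r : C({x : ℂ × T // x.1 ∈ S}, T) := ⟨fun x => x.1.2, continuous_snd.comp continuous_subtype_val⟩
  have h1 : r.comp κ = ContinuousMap.id T := rfl
  have h2 : (κ.comp r).Homotopic (ContinuousMap.id _) := by
    refine ⟨⟨⟨fun p => ⟨((1 - (p.1 : ℝ)) • a0 + (p.1 : ℝ) • p.2.1.1, p.2.1.2), ?_⟩, ?_⟩, ?_, ?_⟩⟩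
    · exact hS ha p.2.2 (by linarith [p.1.2.2]) p.1.2.1 (by ring)
    · refine Continuous.subtype_mk ?_ _
      refine Continuous.prodMk ?_ ?_
      · refine Continuous.add ?_ ?_
        · exact (continuous_const.sub (continuous_subtype_val.comp continuous_fst)).smul
            continuous_const
        · exact (continuous_subtype_val.comp continuous_fst).smul
            (continuous_fst.comp (continuous_subtype_val.comp continuous_snd))
      · exact continuous_snd.comp (continuous_subtype_val.comp continuous_snd)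
    · intro x
      apply Subtype.ext
      simp [κ, r]
    · intro x
      apply Subtype.ext
      simp
  have hκ : Function.Bijective (HH.map R q κ) := by
    refine ⟨fun x y hxy => ?_, fun y => ⟨HH.map R q r y, ?_⟩⟩
    · rw [← HH.map_id R q x, ← HH.map_id R q y, ← h1, HH.map_comp, HH.map_comp, hxy]
    · rw [← HH.map_comp, hHM R _ _ _ _ h2 q, HH.map_id]
  have hk' : k = ((e.symm : C(_, Z))).comp κ := by
    ext t
    apply e.injective
    apply Subtype.ext
    rw [hk t]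
    simp [κ]
  have h3 : ⇑(HH.map R q k) = HH.map R q (e.symm : C(_, Z)) ∘ HH.map R q κ := by
    funext z
    rw [hk', HH.map_comp]
    rfl
  rw [h3]
  exact (bij_homeo R q e.symm).comp hκ

end

theorem sec (hTRI : T_TRI) (hDU : T_DU) (hHM : T_HM) : T_SEC := by
  intro R _ T _ q
  obtain ⟨S, hSo, hSc, hSd, hSr, hSt, -, -⟩ := hTRI
  have hdis : ∀ i j, i ≠ j → ∀ a, a ∈ S i → a ∉ S j := fun i j hij a hi hj =>
    (disjoint_left.mp (hSd i j hij)) hi hj
  have hc3 : ∀ (j : Fin 3) (a : ℂ), a ∈ S j → ¬ ∃ t : ℝ, t ≤ 0 ∧ a ^ 3 = (t : ℂ) :=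
    fun j a ha => (hSt a).mpr ⟨j, ha⟩
  have hc3' : ∀ a : C3, a.1 ∈ S 0 ∨ a.1 ∈ S 1 ∨ a.1 ∈ S 2 := by
    intro a
    have h := (hSt a.1).mp a.2
    rw [Fin.exists_fin_succ, Fin.exists_fin_succ, Fin.exists_fin_one] at h
    exact h
  have hcont : Continuous (fun x : C3 × T => x.1.1) := continuous_subtype_val.comp continuous_fst
  let W : Fin 3 → Set (C3 × T) := fun j => {x | x.1.1 ∈ S j}
  have hW : ∀ j, IsOpen (W j) := fun j => (hSo j).preimage hcont
  let W' : Set (C3 × T) := W 1 ∪ W 2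
  have hA := hDU R (C3 × T) (W 0) W' (hW 0) ((hW 1).union (hW 2))
    (by
      refine eq_univ_of_forall (fun x => ?_)
      exact hc3' x.1)
    (by
      rw [← disjoint_iff_inter_eq_empty, disjoint_left]
      rintro x h0 (h1 | h2)
      · exact hdis 0 1 (by decide) _ h0 h1
      · exact hdis 0 2 (by decide) _ h0 h2) q
  have hB := hDU R W' {x | x.1 ∈ W 1} {x | x.1 ∈ W 2} ((hW 1).preimage continuous_subtype_val)
    ((hW 2).preimage continuous_subtype_val)
    (by
      refine eq_univ_of_forall (fun x => ?_)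
      exact x.2)
    (by
      rw [← disjoint_iff_inter_eq_empty, disjoint_left]
      intro x h1 h2
      exact hdis 1 2 (by decide) _ h1 h2) q
  -- the three flattenings
  let e0 : W 0 ≃ₜ {x : ℂ × T // x.1 ∈ S 0} :=
    { toFun := fun x => ⟨(x.1.1.1, x.1.2), x.2⟩
      invFun := fun x => ⟨(⟨x.1.1, hc3 0 _ x.2⟩, x.1.2), x.2⟩
      left_inv := fun _ => rfl
      right_inv := fun _ => rfl
      continuous_toFun := by fun_prop
      continuous_invFun := by fun_prop }
  let e1 : ({x | x.1 ∈ W 1} : Set W') ≃ₜ {x : ℂ × T // x.1 ∈ S 1} :=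
    { toFun := fun x => ⟨(x.1.1.1.1, x.1.1.2), x.2⟩
      invFun := fun x => ⟨⟨(⟨x.1.1, hc3 1 _ x.2⟩, x.1.2), Or.inl x.2⟩, x.2⟩
      left_inv := fun _ => rfl
      right_inv := fun _ => rfl
      continuous_toFun := by fun_prop
      continuous_invFun := by fun_prop }
  let e2 : ({x | x.1 ∈ W 2} : Set W') ≃ₜ {x : ℂ × T // x.1 ∈ S 2} :=
    { toFun := fun x => ⟨(x.1.1.1.1, x.1.1.2), x.2⟩
      invFun := fun x => ⟨⟨(⟨x.1.1, hc3 2 _ x.2⟩, x.1.2), Or.inr x.2⟩, x.2⟩
      left_inv := fun _ => rfl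
      right_inv := fun _ => rfl
      continuous_toFun := by fun_prop
      continuous_invFun := by fun_prop }
  let k0 : C(T, W 0) := ⟨fun t => ⟨(C3.root 0, t), hSr 0⟩, by fun_prop⟩
  let k1 : C(T, ({x | x.1 ∈ W 1} : Set W')) :=
    ⟨fun t => ⟨⟨(C3.root 1, t), Or.inl (hSr 1)⟩, hSr 1⟩, by fun_prop⟩
  let k2 : C(T, ({x | x.1 ∈ W 2} : Set W')) :=
    ⟨fun t => ⟨⟨(C3.root 2, t), Or.inr (hSr 2)⟩, hSr 2⟩, by fun_prop⟩
  have b0 : Function.Bijective (HH.map R q k0) :=
    bij_sector R hHM q (hSc 0) (C3.root 0).1 (hSr 0) e0 k0 (fun _ => rfl)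
  have b1 : Function.Bijective (HH.map R q k1) :=
    bij_sector R hHM q (hSc 1) (C3.root 1).1 (hSr 1) e1 k1 (fun _ => rfl)
  have b2 : Function.Bijective (HH.map R q k2) :=
    bij_sector R hHM q (hSc 2) (C3.root 2).1 (hSr 2) e2 k2 (fun _ => rfl)
  have key : ∀ c : Fin 3 → HH R q T, ∑ j, HH.map R q (C3.ins T j) (c j) =
      HH.map R q (inc (W 0)) (HH.map R q k0 (c 0)) + HH.map R q (inc W')
        (HH.map R q (inc {x : W' | x.1 ∈ W 1}) (HH.map R q k1 (c 1)) +
          HH.map R q (inc {x : W' | x.1 ∈ W 2}) (HH.map R q k2 (c 2))) := by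
    intro c
    rw [Fin.sum_univ_three, map_add, ← HH.map_comp, ← HH.map_comp, ← HH.map_comp, ← HH.map_comp,
      ← HH.map_comp, ← add_assoc]
    rfl
  constructor
  · intro c c' h
    simp only [key] at h
    have h1 := hA.1 (a₁ := (HH.map R q k0 (c 0),
      (HH.map R q (inc {x : W' | x.1 ∈ W 1}) (HH.map R q k1 (c 1)) +
          HH.map R q (inc {x : W' | x.1 ∈ W 2}) (HH.map R q k2 (c 2)))))
        (a₂ := (HH.map R q k0 (c' 0),
      (HH.map R q (inc {x : W' | x.1 ∈ W 1}) (HH.map R q k1 (c' 1)) +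
          HH.map R q (inc {x : W' | x.1 ∈ W 2}) (HH.map R q k2 (c' 2))))) h
    rw [Prod.mk.injEq] at h1
    have h2 := hB.1 (a₁ := (HH.map R q k1 (c 1), HH.map R q k2 (c 2)))
      (a₂ := (HH.map R q k1 (c' 1), HH.map R q k2 (c' 2))) h1.2
    rw [Prod.mk.injEq] at h2
    have i0 := b0.1 h1.1
    have i1 := b1.1 h2.1
    have i2 := b2.1 h2.2
    funext j
    fin_cases j
    · exact i0
    · exact i1
    · exact i2
  · intro z
    obtain ⟨⟨a, b⟩, hab⟩ := hA.2 z
    obtain ⟨⟨a1, a2⟩, hb⟩ := hB.2 b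
    obtain ⟨c0, hc0⟩ := b0.2 a
    obtain ⟨c1, hc1⟩ := b1.2 a1
    obtain ⟨c2, hc2⟩ := b2.2 a2
    refine ⟨![c0, c1, c2], ?_⟩
    simp only [key]
    rw [← hab]
    simp only [Matrix.cons_val_zero, Matrix.cons_val_one, Matrix.cons_val]
    rw [hc0, hc1, hc2]
    congr 1
    exact congrArg _ hb

end Pool.Agent.H19.LB
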